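import Pool.Agent.W528.HS.Stm

set_option autoImplicit false

namespace Pool.Agent.W326.HS.EI

open Finset

variable {E : Type} [Field E]

/-- logarithmic derivative relation modulo `X ^ (M + 1)` -/
def LD (M : ℕ) (f S : PowerSeries E) : Prop :=
  (PowerSeries.X : PowerSeries E) ^ (M + 1) ∣
    PowerSeries.X * PowerSeries.derivative E f + S * f

lemma LD.one (M : ℕ) : LD M (1 : PowerSeries E) 0 := by
  simp [LD]

lemma LD.mul {M : ℕ} {f g S T : PowerSeries E} (hf : LD M f S) (hg : LD M g T) :
    LD M (f * g) (S + T) := by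
  unfold LD at *
  have h : PowerSeries.X * PowerSeries.derivative E (f * g) + (S + T) * (f * g) =
      g * (PowerSeries.X * PowerSeries.derivative E f + S * f) +
        f * (PowerSeries.X * PowerSeries.derivative E g + T * g) := by
    rw [Derivation.leibniz]
    simp only [smul_eq_mul]
    ring
  rw [h]
  exact dvd_add (dvd_mul_of_dvd_right hf _) (dvd_mul_of_dvd_right hg _)

lemma LD.pow {M : ℕ} {f S : PowerSeries E} (hf : LD M f S) (n : ℕ) :
    LD M (f ^ n) ((n : PowerSeries E) * S) := by
  induction n with
  | zero => simpa using LD.one (E := E) M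
  | succ n ih =>
    have h := ih.mul hf
    rw [pow_succ]
    have e : ((n + 1 : ℕ) : PowerSeries E) * S = (n : PowerSeries E) * S + S := by
      push_cast; ring
    rw [e]; exact h

lemma LD.prod {M : ℕ} {ι : Type} (s : Finset ι) (f S : ι → PowerSeries E)
    (h : ∀ i ∈ s, LD M (f i) (S i)) : LD M (∏ i ∈ s, f i) (∑ i ∈ s, S i) := by
  classical
  induction s using Finset.induction_on with
  | empty => simpa using LD.one (E := E) M
  | insert i s hi ih =>
    rw [prod_insert hi, sum_insert hi]
    exact (h i (mem_insert_self _ _)).mul (ih fun j hj => h j (mem_insert_of_mem hj))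

/-- power sums of a factor -/
noncomputable def Sy (d : ℕ) (y : E) : PowerSeries E :=
  PowerSeries.mk fun n => if n = 0 then 0 else if d ∣ n then (d : E) * y ^ (n / d) else 0

lemma Sy_mul (d : ℕ) (hd : 1 ≤ d) (y : E) :
    Sy d y * (1 - PowerSeries.C y * PowerSeries.X ^ d) =
      PowerSeries.C ((d : E) * y) * PowerSeries.X ^ d := by
  ext n
  rw [mul_sub, mul_one, map_sub]
  have e : Sy d y * (PowerSeries.C y * PowerSeries.X ^ d) =
      PowerSeries.C y * (Sy d y * PowerSeries.X ^ d) := by ring
  rw [e, PowerSeries.coeff_C_mul, PowerSeries.coeff_mul_X_pow', PowerSeries.coeff_C_mul,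
    PowerSeries.coeff_X_pow]
  unfold Sy
  simp only [PowerSeries.coeff_mk]
  by_cases h0 : n = 0
  · subst h0
    have h1 : ¬ d ≤ 0 := by omega
    have h2 : ¬ (0 : ℕ) = d := by omega
    simp [h1, h2]
  · by_cases hdn : d ∣ n
    · obtain ⟨k, rfl⟩ := hdn
      have hk : 1 ≤ k := by
        rcases Nat.eq_zero_or_pos k with h | h
        · subst h; simp at h0
        · exact h
      have hle : d ≤ d * k := Nat.le_mul_of_pos_right d hk
      have hdiv : d * k / d = k := Nat.mul_div_cancel_left k (by omega)
      rw [if_neg h0, if_pos (dvd_mul_right d k), if_pos hle, hdiv]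
      by_cases hk1 : k = 1
      · subst hk1
        simp
      · have h3 : d * k - d ≠ 0 := by
          have : d * 2 ≤ d * k := Nat.mul_le_mul_left d (by omega)
          omega
        have h4 : d * k - d = d * (k - 1) := by rw [Nat.mul_sub, mul_one]
        have h5 : ¬ d * k = d := by
          intro h
          omega
        rw [if_neg h3, h4, if_pos (dvd_mul_right d _), Nat.mul_div_cancel_left _ (by omega),
          if_neg h5]
        obtain ⟨j, rfl⟩ : ∃ j, k = j + 1 := ⟨k - 1, by omega⟩
        simp only [Nat.add_sub_cancel]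
        rw [pow_succ]
        ring
    · have h5 : ¬ n = d := fun h => hdn (h ▸ dvd_refl n)
      rw [if_neg h0, if_neg hdn, if_neg h5]
      by_cases hle : d ≤ n
      · rw [if_pos hle]
        have h6 : ¬ d ∣ n - d := by
          intro h
          apply hdn
          have h7 := dvd_add h (dvd_refl d)
          rwa [Nat.sub_add_cancel hle] at h7
        split_ifs <;> simp
      · rw [if_neg hle]
        simp

lemma LD_factor (M d : ℕ) (hd : 1 ≤ d) (y : E) :
    LD M (1 - PowerSeries.C y * PowerSeries.X ^ d) (Sy d y) := by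
  unfold LD
  rw [Sy_mul d hd]
  have e : PowerSeries.X * PowerSeries.derivative E (1 - PowerSeries.C y * PowerSeries.X ^ d) =
      - (PowerSeries.C ((d : E) * y) * PowerSeries.X ^ d) := by
    rw [map_sub, Derivation.map_one_eq_zero, Derivation.leibniz, PowerSeries.derivative_C,
      Derivation.leibniz_pow, PowerSeries.derivative_X]
    obtain ⟨j, rfl⟩ : ∃ j, d = j + 1 := ⟨d - 1, by omega⟩
    simp only [Nat.add_sub_cancel, smul_eq_mul, nsmul_eq_mul, mul_one, mul_zero, add_zero,
      zero_sub, map_mul, map_natCast]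
    rw [pow_succ]
    ring
  rw [e, neg_add_cancel]
  exact dvd_zero _

/-- changing `S` modulo `X ^ (M + 1)` -/
lemma LD.congr {M : ℕ} {f S T : PowerSeries E} (hf : LD M f S)
    (h : (PowerSeries.X : PowerSeries E) ^ (M + 1) ∣ S - T) : LD M f T := by
  unfold LD at *
  have e : PowerSeries.X * PowerSeries.derivative E f + T * f =
      (PowerSeries.X * PowerSeries.derivative E f + S * f) - (S - T) * f := by ring
  rw [e]
  exact dvd_sub hf (dvd_mul_of_dvd_left h _)

lemma LD.sub {M : ℕ} {f g S : PowerSeries E} (hf : LD M f S) (hg : LD M g S) :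
    LD M (f - g) S := by
  unfold LD at *
  have e : PowerSeries.X * PowerSeries.derivative E (f - g) + S * (f - g) =
      (PowerSeries.X * PowerSeries.derivative E f + S * f) -
        (PowerSeries.X * PowerSeries.derivative E g + S * g) := by
    rw [map_sub]; ring
  rw [e]
  exact dvd_sub hf hg

/-- uniqueness -/
lemma LD.zero [CharZero E] {M : ℕ} {f S : PowerSeries E} (hf : LD M f S)
    (hS : PowerSeries.coeff 0 S = 0) (h0 : PowerSeries.coeff 0 f = 0) :
    ∀ n, n ≤ M → PowerSeries.coeff n f = 0 := by
  intro n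
  induction n using Nat.strong_induction_on with
  | _ n ih =>
    intro hn
    rcases Nat.eq_zero_or_pos n with h | h
    · subst h; exact h0
    · obtain ⟨m, rfl⟩ : ∃ m, n = m + 1 := ⟨n - 1, by omega⟩
      have h1 := (PowerSeries.X_pow_dvd_iff.1 hf) (m + 1) (by omega)
      rw [map_add, PowerSeries.coeff_succ_X_mul, PowerSeries.coeff_derivative,
        PowerSeries.coeff_mul] at h1
      have h2 : ∑ p ∈ antidiagonal (m + 1), PowerSeries.coeff p.1 S * PowerSeries.coeff p.2 f
          = 0 := by
        apply sum_eq_zero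
        rintro ⟨i, j⟩ hij
        rw [HasAntidiagonal.mem_antidiagonal] at hij
        simp only at hij ⊢
        rcases Nat.eq_zero_or_pos i with hi | hi
        · subst hi; rw [hS, zero_mul]
        · rw [ih j (by omega) (by omega), mul_zero]
      rw [h2, add_zero] at h1
      rcases mul_eq_zero.1 h1 with h3 | h3
      · exact h3
      · exfalso
        have : ((m + 1 : ℕ) : E) = 0 := by push_cast; exact h3
        exact absurd (Nat.cast_eq_zero.1 this) (by omega)

/-- the partial Euler product -/
noncomputable def PM (N : ℕ) (μ : E) (a : ℕ → ℕ → ℕ) (M : ℕ) : PowerSeries E :=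
  ∏ d ∈ Icc 1 M, ∏ i ∈ range N, (1 - PowerSeries.C (μ ^ i) * PowerSeries.X ^ d) ^ (a d i)

noncomputable def SM (N : ℕ) (μ : E) (a : ℕ → ℕ → ℕ) (M : ℕ) : PowerSeries E :=
  ∑ d ∈ Icc 1 M, ∑ i ∈ range N, (a d i : PowerSeries E) * Sy d (μ ^ i)

lemma LD_PM (N : ℕ) (μ : E) (a : ℕ → ℕ → ℕ) (M : ℕ) : LD M (PM N μ a M) (SM N μ a M) := by
  unfold PM SM
  refine LD.prod _ _ _ fun d hd => LD.prod _ _ _ fun i _ => ?_
  exact (LD_factor M d (mem_Icc.1 hd).1 _).pow _

open Pool.Agent.W528.HS in
lemma coeff_SM (N : ℕ) (μ : E) (a : ℕ → ℕ → ℕ) (M n : ℕ) (h1 : 1 ≤ n) (hn : n ≤ M) :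
    PowerSeries.coeff n (SM N μ a M) = orbSum N μ a n := by
  unfold SM orbSum
  rw [map_sum]
  have h2 : ∀ d ∈ Icc 1 M, PowerSeries.coeff n (∑ i ∈ range N, (a d i : PowerSeries E) *
      Sy d (μ ^ i)) = if d ∣ n then (d : E) * ∑ i ∈ range N, (a d i : E) * μ ^ (i * (n / d))
        else 0 := by
    intro d hd
    rw [map_sum]
    have h3 : ∀ i ∈ range N, PowerSeries.coeff n ((a d i : PowerSeries E) * Sy d (μ ^ i)) =
        if d ∣ n then (d : E) * ((a d i : E) * μ ^ (i * (n / d))) else 0 := by
      intro i _
      have e : (a d i : PowerSeries E) = PowerSeries.C (a d i : E) := by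
        rw [map_natCast]
      rw [e, PowerSeries.coeff_C_mul]
      unfold Sy
      rw [PowerSeries.coeff_mk, if_neg (by omega)]
      split_ifs
      · rw [← pow_mul]; ring
      · rw [mul_zero]
    rw [sum_congr rfl h3]
    split_ifs
    · rw [mul_sum]
    · simp
  rw [sum_congr rfl h2, ← sum_filter]
  apply sum_congr
  · ext d
    simp only [mem_filter, mem_Icc, Nat.mem_divisors]
    constructor
    · rintro ⟨⟨_, _⟩, h⟩
      exact ⟨h, by omega⟩
    · rintro ⟨h, _⟩
      exact ⟨⟨Nat.pos_of_dvd_of_pos h h1, (Nat.le_of_dvd h1 h).trans hn⟩, h⟩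
  · intro d _; rfl

lemma coeff_zero_SM (N : ℕ) (μ : E) (a : ℕ → ℕ → ℕ) (M : ℕ) :
    PowerSeries.coeff 0 (SM N μ a M) = 0 := by
  unfold SM
  rw [map_sum]
  apply sum_eq_zero
  intro d _
  rw [map_sum]
  apply sum_eq_zero
  intro i _
  have e : (a d i : PowerSeries E) = PowerSeries.C (a d i : E) := by
    rw [map_natCast]
  rw [e, PowerSeries.coeff_C_mul]
  simp [Sy]

/-- the series of the multiset -/
noncomputable def GA (A : Multiset E) : Polynomial E :=
  (A.map fun x => 1 - Polynomial.C x * Polynomial.X).prod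

noncomputable def SA (A : Multiset E) : PowerSeries E :=
  PowerSeries.mk fun n => if n = 0 then 0 else (A.map fun x => x ^ n).sum

lemma LD_GA (M : ℕ) (A : Multiset E) : LD M (GA A : PowerSeries E) (SA A) := by
  induction A using Multiset.induction_on with
  | empty =>
    have h1 : (GA (0 : Multiset E) : PowerSeries E) = 1 := by simp [GA]
    have h2 : SA (0 : Multiset E) = 0 := by
      ext n
      simp [SA]
    rw [h1, h2]
    exact LD.one M
  | cons x A ih =>
    have h1 : (GA (x ::ₘ A) : PowerSeries E) =
        (1 - PowerSeries.C x * PowerSeries.X ^ 1) * (GA A : PowerSeries E) := by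
      simp [GA]
    have h2 : SA (x ::ₘ A) = Sy 1 x + SA A := by
      ext n
      simp only [SA, Sy, map_add, PowerSeries.coeff_mk, Multiset.map_cons, Multiset.sum_cons,
        one_dvd, if_true, Nat.cast_one, one_mul, Nat.div_one]
      split_ifs <;> simp
    rw [h1, h2]
    exact (LD_factor M 1 le_rfl x).mul ih

lemma coeff_zero_PM (N : ℕ) (μ : E) (a : ℕ → ℕ → ℕ) (M : ℕ) :
    PowerSeries.coeff 0 (PM N μ a M) = 1 := by
  rw [PowerSeries.coeff_zero_eq_constantCoeff_apply]
  unfold PM
  rw [map_prod]
  apply prod_eq_one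
  intro d hd
  rw [map_prod]
  apply prod_eq_one
  intro i _
  have h1 : d ≠ 0 := by have := (mem_Icc.1 hd).1; omega
  rw [map_pow, map_sub, map_one, map_mul, map_pow PowerSeries.constantCoeff PowerSeries.X d,
    PowerSeries.constantCoeff_X, zero_pow h1, mul_zero, sub_zero, one_pow]

lemma coeff_zero_GA (A : Multiset E) : PowerSeries.coeff 0 (GA A : PowerSeries E) = 1 := by
  induction A using Multiset.induction_on with
  | empty => simp [GA]
  | cons x A ih =>
    have h1 : (GA (x ::ₘ A) : PowerSeries E) =
        (1 - PowerSeries.C x * PowerSeries.X ^ 1) * (GA A : PowerSeries E) := by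
      simp [GA]
    rw [PowerSeries.coeff_zero_eq_constantCoeff_apply] at ih ⊢
    rw [h1, map_mul, ih]
    simp

/-- series with coefficients in a subalgebra -/
def In (O : Subalgebra ℤ E) (f : PowerSeries E) : Prop := ∀ n, PowerSeries.coeff n f ∈ O

lemma In.one (O : Subalgebra ℤ E) : In O (1 : PowerSeries E) := by
  intro n
  rw [PowerSeries.coeff_one]
  split_ifs
  · exact O.one_mem
  · exact O.zero_mem

lemma In.mul {O : Subalgebra ℤ E} {f g : PowerSeries E} (hf : In O f) (hg : In O g) :
    In O (f * g) := by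
  intro n
  rw [PowerSeries.coeff_mul]
  exact O.sum_mem fun p _ => O.mul_mem (hf _) (hg _)

lemma In.pow {O : Subalgebra ℤ E} {f : PowerSeries E} (hf : In O f) (n : ℕ) :
    In O (f ^ n) := by
  induction n with
  | zero => rw [pow_zero]; exact In.one O
  | succ n ih => rw [pow_succ]; exact ih.mul hf

lemma In.prod {O : Subalgebra ℤ E} {ι : Type} (s : Finset ι) (f : ι → PowerSeries E)
    (h : ∀ i ∈ s, In O (f i)) : In O (∏ i ∈ s, f i) := by
  classical
  induction s using Finset.induction_on with
  | empty => rw [prod_empty]; exact In.one O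
  | insert i s hi ih =>
    rw [prod_insert hi]
    exact (h i (mem_insert_self _ _)).mul (ih fun j hj => h j (mem_insert_of_mem hj))

lemma In_PM (O : Subalgebra ℤ E) (N : ℕ) (μ : E) (hμ : μ ∈ O) (a : ℕ → ℕ → ℕ) (M : ℕ) :
    In O (PM N μ a M) := by
  unfold PM
  refine In.prod _ _ fun d _ => In.prod _ _ fun i _ => In.pow ?_ _
  intro n
  rw [map_sub, PowerSeries.coeff_one, PowerSeries.coeff_C_mul, PowerSeries.coeff_X_pow]
  refine O.sub_mem ?_ (O.mul_mem (O.pow_mem hμ _) ?_)
  · split_ifs
    · exact O.one_mem
    · exact O.zero_mem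
  · split_ifs
    · exact O.one_mem
    · exact O.zero_mem

lemma natDegree_GA (A : Multiset E) : (GA A).natDegree ≤ Multiset.card A := by
  induction A using Multiset.induction_on with
  | empty => simp [GA]
  | cons x A ih =>
    have h1 : GA (x ::ₘ A) = (1 - Polynomial.C x * Polynomial.X) * GA A := by
      simp [GA]
    rw [h1, Multiset.card_cons]
    refine Polynomial.natDegree_mul_le.trans ?_
    have h2 : (1 - Polynomial.C x * Polynomial.X : Polynomial E).natDegree ≤ 1 := by
      refine (Polynomial.natDegree_sub_le _ _).trans ?_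
      rw [Polynomial.natDegree_one]
      refine max_le (by omega) ((Polynomial.natDegree_C_mul_le _ _).trans Polynomial.natDegree_X_le)
    omega

lemma eval_GA (A : Multiset E) (x : E) (hx : x ∈ A) (hx0 : x ≠ 0) :
    (GA A).eval x⁻¹ = 0 := by
  obtain ⟨B, rfl⟩ := Multiset.exists_cons_of_mem hx
  have h1 : GA (x ::ₘ B) = (1 - Polynomial.C x * Polynomial.X) * GA B := by
    simp [GA]
  rw [h1, Polynomial.eval_mul]
  simp [hx0]

/-- the root of a reversed polynomial with coefficients in `O` is integral over `O` -/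
lemma integral_of (O : Subalgebra ℤ E) (A : Multiset E) (x : E) (hx : x ∈ A) (hx0 : x ≠ 0)
    (hO : ∀ n, n ≤ Multiset.card A → (GA A).coeff n ∈ O) : IsIntegral O x := by
  set m := Multiset.card A with hm
  have hm1 : 1 ≤ m := Multiset.card_pos_iff_exists_mem.2 ⟨x, hx⟩
  have h1 := eval_GA A x hx hx0
  rw [Polynomial.eval_eq_sum_range' (n := m + 1) (Nat.lt_succ_of_le (natDegree_GA A))] at h1
  have h2 : ∑ k ∈ range (m + 1), (GA A).coeff k * x ^ (m - k) = 0 := by
    have h3 : ∑ k ∈ range (m + 1), (GA A).coeff k * x ^ (m - k) =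
        x ^ m * ∑ k ∈ range (m + 1), (GA A).coeff k * x⁻¹ ^ k := by
      rw [mul_sum]
      apply sum_congr rfl
      intro k hk
      have hk' : k ≤ m := Nat.lt_succ_iff.1 (mem_range.1 hk)
      have h4 : x ^ m = x ^ (m - k) * x ^ k := by rw [← pow_add, Nat.sub_add_cancel hk']
      rw [h4, inv_pow]
      have h5 : x ^ k ≠ 0 := pow_ne_zero _ hx0
      field_simp
    rw [h3, h1, mul_zero]
  rw [sum_range_succ'] at h2
  have h0 : (GA A).coeff 0 = 1 := by
    have := coeff_zero_GA A
    rwa [Polynomial.coeff_coe] at this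
  rw [h0, one_mul, Nat.sub_zero] at h2
  classical
  let q : Polynomial O := ∑ k ∈ range m,
    if h : k + 1 ≤ m then Polynomial.C (⟨(GA A).coeff (k + 1), hO _ h⟩ : O) *
      Polynomial.X ^ (m - (k + 1)) else 0
  have hq : q.degree < (m : WithBot ℕ) := by
    refine Polynomial.mem_degreeLT.1 (Submodule.sum_mem _ fun k hk => Polynomial.mem_degreeLT.2 ?_)
    have hk' := mem_range.1 hk
    rw [dif_pos (by omega)]
    refine (Polynomial.degree_C_mul_X_pow_le _ _).trans_lt ?_
    exact_mod_cast (by omega : m - (k + 1) < m)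
  refine ⟨Polynomial.X ^ m + q, Polynomial.monic_X_pow_add hq, ?_⟩
  rw [Polynomial.eval₂_add, Polynomial.eval₂_X_pow, Polynomial.eval₂_finsetSum]
  rw [← h2, add_comm]
  congr 1
  apply sum_congr rfl
  intro k hk
  have hk' := mem_range.1 hk
  rw [dif_pos (by omega), Polynomial.eval₂_mul, Polynomial.eval₂_C, Polynomial.eval₂_X_pow]
  rfl

theorem main : Pool.Agent.W528.HS.EI := by
  intro E _ _ N μ hN hμ a A σ hσ h x hx
  by_cases hx0 : x = 0
  · rw [hx0]; exact isIntegral_zero
  have hμO : μ ∈ integralClosure ℤ E := by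
    have h1 : IsIntegral ℤ (μ ^ N) := by rw [hμ]; exact isIntegral_one
    exact IsIntegral.of_pow hN h1
  set M := Multiset.card A with hM
  have hP := LD_PM N μ a M
  have hG := LD_GA M A
  have hPO := In_PM (integralClosure ℤ E) N μ hμO a M
  have hP0 := coeff_zero_PM N μ a M
  have hG0 := coeff_zero_GA A
  have hS0 := coeff_zero_SM N μ a M
  have hA0 : PowerSeries.coeff 0 (SA A) = 0 := by simp [SA]
  have key : ∀ n, n ≤ M → (GA A).coeff n ∈ integralClosure ℤ E := by
    rcases hσ with hσ | hσ
    · have h1 : LD M (PM N μ a M) (SA A) := by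
        refine hP.congr ?_
        rw [PowerSeries.X_pow_dvd_iff]
        intro n hn
        rw [map_sub]
        rcases Nat.eq_zero_or_pos n with h2 | h2
        · subst h2; rw [hS0, hA0, sub_zero]
        · rw [coeff_SM N μ a M n h2 (by omega), h n h2, hσ]
          simp only [SA, PowerSeries.coeff_mk]
          rw [if_neg (by omega)]
          simp
      have h2 := (hG.sub h1).zero hA0 (by rw [map_sub, hG0, hP0, sub_self])
      intro n hn
      have h3 := h2 n hn
      rw [map_sub, sub_eq_zero, Polynomial.coeff_coe] at h3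
      rw [h3]
      exact hPO n
    · have h1 : LD M ((GA A : PowerSeries E) * PM N μ a M) 0 := by
        refine (hG.mul hP).congr ?_
        rw [PowerSeries.X_pow_dvd_iff]
        intro n hn
        rw [sub_zero, map_add]
        rcases Nat.eq_zero_or_pos n with h2 | h2
        · subst h2; rw [hS0, hA0, zero_add]
        · rw [coeff_SM N μ a M n h2 (by omega), h n h2, hσ]
          simp only [SA, PowerSeries.coeff_mk]
          rw [if_neg (by omega)]
          simp
      have h2 := (h1.sub (LD.one M)).zero (by simp) (by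
        rw [map_sub, PowerSeries.coeff_zero_eq_constantCoeff_apply, map_mul,
          ← PowerSeries.coeff_zero_eq_constantCoeff_apply,
          ← PowerSeries.coeff_zero_eq_constantCoeff_apply, hG0, hP0]
        simp)
      intro n
      induction n using Nat.strong_induction_on with
      | _ n ih =>
        intro hn
        rcases Nat.eq_zero_or_pos n with h3 | h3
        · subst h3
          rw [Polynomial.coeff_coe] at hG0
          rw [hG0]
          exact (integralClosure ℤ E).one_mem
        · have h4 := h2 n hn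
          rw [map_sub, PowerSeries.coeff_one, if_neg (by omega), sub_zero,
            PowerSeries.coeff_mul] at h4
          have h5 : (n, 0) ∈ antidiagonal n := by simp
          rw [← Finset.add_sum_erase _ _ h5] at h4
          simp only [hP0, mul_one, Polynomial.coeff_coe] at h4
          rw [eq_neg_of_add_eq_zero_left h4]
          refine (integralClosure ℤ E).neg_mem ((integralClosure ℤ E).sum_mem ?_)
          rintro ⟨i, j⟩ hij
          rw [mem_erase, HasAntidiagonal.mem_antidiagonal] at hij
          obtain ⟨h6, h7⟩ := hij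
          simp only at h7
          have h8 : j ≠ 0 := by
            rintro rfl
            apply h6
            simp at h7
            simp [h7]
          exact (integralClosure ℤ E).mul_mem (ih i (by omega) (by omega)) (hPO j)
  have hint : IsIntegral (integralClosure ℤ E) x := integral_of _ A x hx hx0 key
  exact isIntegral_trans x hint

end Pool.Agent.W326.HS.EI
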